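import Mathlib
import Pool.Agent.SobClos.Main

/-!
For every `n ≥ 3` and every `1 ≤ p < ∞` the weak and the strong `W^{1,p}` closures of the
homeomorphisms between bounded open subsets of `ℝⁿ` can differ: there are a bounded open convex set
`Ω` and a bi-Lipschitz homeomorphism `Φ` of `ℝⁿ` such that, with `Ω' = Φ(Ω)`, the strong closure of
the homeomorphisms of `Ω` onto `Ω'` is strictly smaller than the weak closure, for all
`1 ≤ p < ∞` simultaneously.
-/

open MeasureTheory Filter Topology Set Metric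
open scoped ENNReal NNReal

namespace Pool.Agent.Results.MP_a6162f_an.AllPairs

open Pool.Agent.SobClos

/-- Norm convergence implies weak convergence. -/
lemma weakConv_of_strongConv {n : ℕ} {F : Type*} [NormedAddCommGroup F] [NormedSpace ℝ F]
    {p : ℝ≥0∞} [Fact (1 ≤ p)] {Ω : Set (E n)} {uk : ℕ → E n → F} {u : E n → F}
    (h : StrongConv p Ω uk u) (hk : ∀ k, MemLp (uk k) p (volume.restrict Ω))
    (hu : MemLp u p (volume.restrict Ω)) : WeakConv p Ω uk u :=
  ⟨hk, hu, fun Λ => (Λ.continuous.tendsto _).comp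
    ((Lp.tendsto_Lp_iff_tendsto_eLpNorm'' uk hk u hu).2 h)⟩

lemma strong_subset_weak {n : ℕ} (p : ℝ≥0∞) [Fact (1 ≤ p)] (Ω Ω' : Set (E n)) :
    strongClosure p Ω Ω' ⊆ weakClosure p Ω Ω' := by
  rintro f ⟨U, fk, Uk, h1, h2, h3, h4, h5⟩
  exact ⟨U, fk, Uk, h1, h2, h3, weakConv_of_strongConv h4 (fun k => (h3 k).1.1) h1.1,
    weakConv_of_strongConv h5 (fun k => (h3 k).1.2.1) h1.2.1⟩

theorem result (n : ℕ) (hn : 3 ≤ n) : ClosuresDiffer (EuclideanSpace ℝ (Fin n)) := by
  obtain ⟨m, rfl⟩ : ∃ m, n = m + 3 := ⟨n - 3, by omega⟩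
  refine ⟨wedge m, shearHomeo m, ⟨centre m, (ball_sub _ ?_).1⟩, isOpen_wedge m, convex_wedge m,
    isBounded_wedge m, (shearHomeo m).isOpenMap _ (isOpen_wedge m), ?_,
    ⟨9, shear_lipschitz, unshear_lipschitz⟩, fun p _ hp => ?_⟩
  · exact mem_closedBall_self (by norm_num)
  · exact (shear_lipschitz (m := m)).isBounded_image (isBounded_wedge m)
  · refine ssubset_of_subset_of_ne (strong_subset_weak p _ _) fun heq => ?_
    have h := Gmap_mem_weakClosure m p hp
    rw [← heq] at h
    exact Gmap_notMem_strongClosure m p h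

end Pool.Agent.Results.MP_a6162f_an.AllPairs
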